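import Mathlib

open Finset

namespace Pool.Agent.H960.HL

/-- no two consecutive letters are equal -/
def Proper {α : Type} {n : ℕ} (w : Fin n → α) : Prop :=
  ∀ i j : Fin n, (i : ℕ) + 1 = j → w i ≠ w j

open Classical in
/-- the number of orders of arrival of the letters of `w` for which all partial words are proper -/
noncomputable def B {α : Type} : (n : ℕ) → (Fin n → α) → ℕ
  | 0, _ => 1
  | n + 1, w => if Proper w then ∑ i : Fin (n + 1), B n (fun j => w (i.succAbove j)) else 0

theorem B_pos_proper {α : Type} {n : ℕ} (w : Fin (n + 1) → α) (h : B (n + 1) w ≠ 0) : Proper w := by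
  classical
  by_contra hp
  exact h (by simp [B, hp])

theorem proper_tail {α : Type} {n : ℕ} {w : Fin (n + 1) → α} (h : Proper w) :
    Proper (fun j : Fin n => w ((0 : Fin (n + 1)).succAbove j)) := by
  intro i j hij
  simp only [Fin.zero_succAbove]
  exact h _ _ (by simp [Fin.val_succ]; omega)

theorem proper_init {α : Type} {n : ℕ} {w : Fin (n + 1) → α} (h : Proper w) :
    Proper (fun j : Fin n => w ((Fin.last n).succAbove j)) := by
  intro i j hij
  simp only [Fin.succAbove_last]
  exact h _ _ (by simpa using hij)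

theorem B_lower {α : Type} : ∀ (n : ℕ) (w : Fin (n + 1) → α), Proper w → 2 ^ n ≤ B (n + 1) w := by
  classical
  intro n
  induction n with
  | zero =>
    intro w hw
    simp [B, hw]
  | succ n ih =>
    intro w hw
    have h1 := ih _ (proper_tail hw)
    have h2 := ih _ (proper_init hw)
    rw [B, if_pos hw]
    have hne : (0 : Fin (n + 2)) ≠ Fin.last (n + 1) := by
      intro h; simpa using congrArg Fin.val h
    calc 2 ^ (n + 1) = 2 ^ n + 2 ^ n := by ring
      _ ≤ B (n + 1) (fun j => w ((0 : Fin (n + 2)).succAbove j)) +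
          B (n + 1) (fun j => w ((Fin.last (n + 1)).succAbove j)) := add_le_add h1 h2
      _ = ∑ i ∈ ({0, Fin.last (n + 1)} : Finset (Fin (n + 2))),
          B (n + 1) (fun j => w (i.succAbove j)) := by rw [Finset.sum_pair hne]
      _ ≤ _ := Finset.sum_le_sum_of_subset (Finset.subset_univ _)

/-- letters at distance two are equal -/
def Alt {α : Type} {n : ℕ} (w : Fin n → α) : Prop :=
  ∀ i j : Fin n, (i : ℕ) + 2 = j → w i = w j

theorem B_upper {α : Type} : ∀ (n : ℕ) (w : Fin (n + 1) → α), Alt w → B (n + 1) w ≤ 2 ^ n := by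
  classical
  intro n
  induction n with
  | zero =>
    intro w hw
    by_cases hp : Proper w <;> simp [B, hp]
  | succ n ih =>
    intro w hw
    by_cases hp : Proper w
    swap
    · simp [B, hp]
    rw [B, if_pos hp]
    have hne : (0 : Fin (n + 2)) ≠ Fin.last (n + 1) := by
      intro h; simpa using congrArg Fin.val h
    have hz : ∀ i ∈ (Finset.univ : Finset (Fin (n + 2))),
        i ∉ ({0, Fin.last (n + 1)} : Finset (Fin (n + 2))) →
        B (n + 1) (fun j => w (i.succAbove j)) = 0 := by
      intro i _ hi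
      simp only [Finset.mem_insert, Finset.mem_singleton, not_or] at hi
      obtain ⟨hi0, hil⟩ := hi
      have hv0 : (i : ℕ) ≠ 0 := fun h => hi0 (Fin.ext h)
      have hvl : (i : ℕ) ≠ n + 1 := fun h => hil (Fin.ext h)
      have hlt := i.isLt
      by_contra hB
      have hpr := B_pos_proper _ hB
      have a : (i : ℕ) - 1 < n + 1 := by omega
      have b : (i : ℕ) < n + 1 := by omega
      refine hpr ⟨(i : ℕ) - 1, a⟩ ⟨(i : ℕ), b⟩ (by show (i : ℕ) - 1 + 1 = (i : ℕ); omega) ?_
      have e1 : i.succAbove ⟨(i : ℕ) - 1, a⟩ = ⟨(i : ℕ) - 1, by omega⟩ := by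
        rw [Fin.succAbove_of_castSucc_lt]
        · rfl
        · rw [Fin.lt_def]; show (i : ℕ) - 1 < (i : ℕ); omega
      have e2 : i.succAbove ⟨(i : ℕ), b⟩ = ⟨(i : ℕ) + 1, by omega⟩ := by
        rw [Fin.succAbove_of_le_castSucc]
        · rfl
        · rw [Fin.le_def]; exact le_refl _
      show w (i.succAbove ⟨(i : ℕ) - 1, a⟩) = w (i.succAbove ⟨(i : ℕ), b⟩)
      rw [e1, e2]
      exact hw _ _ (by show (i : ℕ) - 1 + 2 = (i : ℕ) + 1; omega)
    rw [← Finset.sum_subset (Finset.subset_univ ({0, Fin.last (n + 1)} : Finset (Fin (n + 2)))) hz,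
      Finset.sum_pair hne]
    have t1 : B (n + 1) (fun j => w ((0 : Fin (n + 2)).succAbove j)) ≤ 2 ^ n := by
      refine ih _ ?_
      intro i j hij
      simp only [Fin.zero_succAbove]
      exact hw _ _ (by simp [Fin.val_succ]; omega)
    have t2 : B (n + 1) (fun j => w ((Fin.last (n + 1)).succAbove j)) ≤ 2 ^ n := by
      refine ih _ ?_
      intro i j hij
      simp only [Fin.succAbove_last]
      exact hw _ _ (by simpa using hij)
    calc _ ≤ 2 ^ n + 2 ^ n := add_le_add t1 t2
      _ = 2 ^ (n + 1) := by ring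

/-- total number over all words -/
noncomputable def S (q n : ℕ) : ℕ := ∑ w : Fin n → Fin q, B n w

end Pool.Agent.H960.HL
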