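import Pool.Agent.H960.HL.Tot

open Finset MeasureTheory

namespace Pool.Agent.H960.HL

theorem fact_le (a : ℕ) : ∀ r : ℕ, (a + r).factorial ≤ a.factorial * (a + r) ^ r
  | 0 => by simp
  | r + 1 => by
    have ih := fact_le a r
    have : (a + (r + 1)).factorial = (a + r + 1) * (a + r).factorial := by
      rw [← add_assoc, Nat.factorial_succ]
    rw [this]
    calc (a + r + 1) * (a + r).factorial ≤ (a + r + 1) * (a.factorial * (a + r) ^ r) :=
          Nat.mul_le_mul_left _ ih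
      _ ≤ (a + r + 1) * (a.factorial * (a + r + 1) ^ r) :=
          Nat.mul_le_mul_left _ (Nat.mul_le_mul_left _ (Nat.pow_le_pow_left (by omega) r))
      _ = a.factorial * (a + (r + 1)) ^ (r + 1) := by ring

theorem exists_large (r : ℕ) : ∃ n : ℕ, (n + r + 3) ^ r < 2 ^ (n + r + 2) := by
  have h := tendsto_pow_const_div_const_pow_of_one_lt r (one_lt_two : (1 : ℝ) < 2)
  have h2 := (h.eventually (gt_mem_nhds (show (0 : ℝ) < 1 / 2 by norm_num)))
  obtain ⟨N, hN⟩ := Filter.eventually_atTop.mp h2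
  refine ⟨N, ?_⟩
  have h3 := hN (N + r + 3) (by omega)
  rw [div_lt_iff₀ (by positivity)] at h3
  have h4 : (((N + r + 3 : ℕ) : ℝ)) ^ r < (2 : ℝ) ^ (N + r + 2) := by
    calc (((N + r + 3 : ℕ) : ℝ)) ^ r < 1 / 2 * 2 ^ (N + r + 3) := h3
      _ = 2 ^ (N + r + 2) := by rw [pow_succ (2 : ℝ) (N + r + 2)]; ring
  exact_mod_cast h4

/-- the key inequality between the two families of numbers -/
theorem key (r n : ℕ) (z : Fin (n + 2) → Fin 4) (hz : Alt z) (u : Fin (n + 1 + r) → Fin 3)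
    (hu : B (n + 1 + r) u ≠ 0)
    (h : (B (n + 1 + r) u : ℝ) / S 3 (n + 1 + r) ≤ (B (n + 2) z : ℝ) / S 4 (n + 2)) :
    2 ^ (n + r + 2) ≤ (n + r + 3) ^ r := by
  have hN : n + 1 + r = (n + r) + 1 := by ring
  have hBu : 2 ^ (n + r) ≤ B (n + 1 + r) u := by
    have key : ∀ (N : ℕ) (hN : N = (n + r) + 1) (u : Fin N → Fin 3), B N u ≠ 0 →
        2 ^ (n + r) ≤ B N u := by
      intro N hN u hu
      subst hN
      exact B_lower _ _ (B_pos_proper _ hu)
    exact key _ hN u hu
  have hBz : B (n + 2) z ≤ 2 ^ (n + 1) := B_upper _ _ hz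
  have h4 := S_four (n + 2)
  have h3 := S_three (n + 1 + r)
  have h4pos : 0 < S 4 (n + 2) := lt_of_lt_of_le (by positivity) h4
  have h3pos : 0 < S 3 (n + 1 + r) := by
    have : B (n + 1 + r) u ≤ S 3 (n + 1 + r) :=
      Finset.single_le_sum (f := fun w => B (n + 1 + r) w) (fun _ _ => Nat.zero_le _)
        (Finset.mem_univ u)
    exact lt_of_lt_of_le (Nat.pos_of_ne_zero hu) this
  rw [div_le_div_iff₀ (by exact_mod_cast h3pos) (by exact_mod_cast h4pos)] at h
  have h' : B (n + 1 + r) u * S 4 (n + 2) ≤ B (n + 2) z * S 3 (n + 1 + r) := by exact_mod_cast h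
  have e1 : 2 ^ (n + r) * (2 ^ (n + 2) * (n + 2 + 1).factorial) ≤
      2 ^ (n + 1) * S 3 (n + 1 + r) :=
    calc _ ≤ B (n + 1 + r) u * S 4 (n + 2) := Nat.mul_le_mul hBu h4
      _ ≤ _ := h'
      _ ≤ _ := Nat.mul_le_mul_right _ hBz
  have e2 : 2 ^ (n + 1) * (2 ^ (n + r + 2) * (n + 3).factorial) ≤
      2 ^ (n + 1) * (n + 3 + r).factorial := by
    calc 2 ^ (n + 1) * (2 ^ (n + r + 2) * (n + 3).factorial) =
        2 * (2 ^ (n + r) * (2 ^ (n + 2) * (n + 2 + 1).factorial)) := by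
          have : n + 2 + 1 = n + 3 := rfl
          rw [this]
          ring
      _ ≤ 2 * (2 ^ (n + 1) * S 3 (n + 1 + r)) := Nat.mul_le_mul_left _ e1
      _ = 2 ^ (n + 1) * (2 * S 3 (n + 1 + r)) := by ring
      _ ≤ 2 ^ (n + 1) * (n + 1 + r + 2).factorial := Nat.mul_le_mul_left _ h3
      _ = _ := by
          have : n + 1 + r + 2 = n + 3 + r := by ring
          rw [this]
  have e3 := Nat.le_of_mul_le_mul_left e2 (by positivity)
  have e4 := e3.trans (fact_le (n + 3) r)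
  have e5 : (n + 3).factorial * 2 ^ (n + r + 2) ≤ (n + 3).factorial * (n + 3 + r) ^ r := by
    rw [mul_comm]; exact e4
  have e6 := Nat.le_of_mul_le_mul_left e5 (Nat.factorial_pos _)
  have : n + 3 + r = n + r + 3 := by ring
  rwa [this] at e6

/-- the process with window probabilities `B(w)/S(q,n)` -/
structure IsHL {Ω : Type} [MeasurableSpace Ω] (P : Measure Ω) (q : ℕ) (X : ℤ → Ω → Fin q) :
    Prop where
  meas : ∀ i, Measurable (X i)
  law : ∀ (m : ℤ) (n : ℕ) (w : Fin n → Fin q),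
    P.real {ω | ∀ j : Fin n, X (m + (j : ℤ)) ω = w j} = (B n w : ℝ) / S q n

theorem main {Ω : Type} [MeasurableSpace Ω] (P : Measure Ω) [IsProbabilityMeasure P]
    (Y : ℤ → Ω → Fin 3) (hY : IsHL P 3 Y) (r : ℕ) (g : (Fin r → Fin 3) → Fin 4) :
    ¬ IsHL P 4 (fun i ω => g (fun k => Y (i + 1 + (k : ℤ)) ω)) := by
  classical
  intro h
  obtain ⟨n, hn⟩ := exists_large r
  set z : Fin (n + 2) → Fin 4 := fun j => if (j : ℕ) % 2 = 0 then 0 else 1 with hz
  have hzA : Alt z := by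
    intro i j hij
    simp only [hz]
    have : ((i : ℕ) % 2 = 0) ↔ ((j : ℕ) % 2 = 0) := by omega
    simp [this]
  have hzP : Proper z := by
    intro i j hij
    simp only [hz]
    by_cases hi : (i : ℕ) % 2 = 0
    · have hj : ¬ (j : ℕ) % 2 = 0 := by omega
      simp [hi, hj]
    · have hj : (j : ℕ) % 2 = 0 := by omega
      simp [hi, hj]
  have hBz : 0 < B (n + 2) z := lt_of_lt_of_le (by positivity) (B_lower _ _ hzP)
  have h4pos : 0 < S 4 (n + 2) := lt_of_lt_of_le (by positivity) (S_four (n + 2))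
  have hlawz := h.law 0 (n + 2) z
  set Ez : Set Ω := {ω | ∀ j : Fin (n + 2), g (fun k => Y (0 + (j : ℤ) + 1 + (k : ℤ)) ω) = z j}
    with hEz
  have hEpos : 0 < P.real Ez := by
    rw [hlawz]
    positivity
  let W : (Fin (n + 1 + r) → Fin 3) → Set Ω := fun u =>
    {ω | ∀ l : Fin (n + 1 + r), Y (1 + (l : ℤ)) ω = u l}
  -- blocks
  let T : Finset (Fin (n + 1 + r) → Fin 3) := Finset.univ.filter (fun u =>
    ∀ j : Fin (n + 2), g (fun k => if hk : (j : ℕ) + (k : ℕ) < n + 1 + r then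
      u ⟨(j : ℕ) + (k : ℕ), hk⟩ else 0) = z j)
  have hcover : Ez ⊆ ⋃ u ∈ T, W u := by
    intro ω hω
    simp only [Set.mem_iUnion]
    refine ⟨fun l => Y (1 + (l : ℤ)) ω, ?_, fun l => rfl⟩
    simp only [T, Finset.mem_filter, Finset.mem_univ, true_and]
    intro j
    have := hω j
    rw [← this]
    congr 1
    funext k
    have hk : (j : ℕ) + (k : ℕ) < n + 1 + r := by
      have := j.isLt; have := k.isLt; omega
    rw [dif_pos hk]
    congr 1
    push_cast
    ring
  have hsub : ∀ u ∈ T, W u ⊆ Ez := by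
    intro u hu ω hω
    simp only [T, Finset.mem_filter, Finset.mem_univ, true_and] at hu
    intro j
    rw [← hu j]
    congr 1
    funext k
    have hk : (j : ℕ) + (k : ℕ) < n + 1 + r := by
      have := j.isLt; have := k.isLt; omega
    rw [dif_pos hk, ← hω ⟨(j : ℕ) + (k : ℕ), hk⟩]
    congr 1
    push_cast
    ring
  have hex : ∃ u ∈ T, P.real (W u) ≠ 0 := by
    by_contra hcon
    push Not at hcon
    have : P.real Ez ≤ 0 := by
      calc P.real Ez ≤ P.real (⋃ u ∈ T, W u) := measureReal_mono hcover (measure_ne_top _ _)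
        _ ≤ ∑ u ∈ T, P.real (W u) := measureReal_biUnion_finset_le T W
        _ = 0 := Finset.sum_eq_zero hcon
    linarith
  obtain ⟨u, huT, hu⟩ := hex
  have hlawu := hY.law 1 (n + 1 + r) u
  have hWu : P.real (W u) = (B (n + 1 + r) u : ℝ) / S 3 (n + 1 + r) := hlawu
  have hBu : B (n + 1 + r) u ≠ 0 := by
    intro h0
    apply hu
    rw [hWu, h0]
    simp
  have hle : P.real (W u) ≤ P.real Ez := measureReal_mono (hsub u huT)
  rw [hWu, hlawz] at hle
  have := key r n z hzA u hBu hle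
  omega

end Pool.Agent.H960.HL
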