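import Pool.Agent.H960.HL.Tot

open Finset

namespace Pool.Agent.H960.HL

/-- `σ j` is the time (from `0`) at which the letter `j` arrives: at every time `t` the letters which
have arrived before `t`, in their order on the line, have no two consecutive equal letters -/
def GoodOrder {α : Type} {n : ℕ} (w : Fin n → α) (σ : Equiv.Perm (Fin n)) : Prop :=
  ∀ t : ℕ, ∀ i j : Fin n, i < j → (σ i : ℕ) < t → (σ j : ℕ) < t →
    (∀ k : Fin n, i < k → k < j → t ≤ (σ k : ℕ)) → w i ≠ w j

/-- the order in which the letter `i` arrives last and the others in the order `τ` -/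
noncomputable def ins {n : ℕ} (x : Fin (n + 1) × Equiv.Perm (Fin n)) : Equiv.Perm (Fin (n + 1)) :=
  (finSuccEquiv' x.1).trans ((Equiv.optionCongr x.2).trans (finSuccEquiv' (Fin.last n)).symm)

theorem ins_same {n : ℕ} (i : Fin (n + 1)) (τ : Equiv.Perm (Fin n)) :
    ins (i, τ) i = Fin.last n := by
  simp [ins]

theorem ins_sa {n : ℕ} (i : Fin (n + 1)) (τ : Equiv.Perm (Fin n)) (j : Fin n) :
    ins (i, τ) (i.succAbove j) = (τ j).castSucc := by
  simp [ins]

theorem ins_inj {n : ℕ} : Function.Injective (ins (n := n)) := by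
  rintro ⟨i, τ⟩ ⟨i', τ'⟩ h
  have h1 : i = i' := by
    apply (ins (i', τ')).injective
    rw [ins_same, ← h, ins_same]
  subst h1
  have h2 : τ = τ' := by
    ext j
    have : ins (i, τ) (i.succAbove j) = ins (i, τ') (i.succAbove j) := by rw [h]
    rw [ins_sa, ins_sa] at this
    exact congrArg Fin.val (Fin.castSucc_injective _ this)
  rw [h2]

theorem ins_bij {n : ℕ} : Function.Bijective (ins (n := n)) := by
  rw [Fintype.bijective_iff_injective_and_card]
  refine ⟨ins_inj, ?_⟩
  simp [Fintype.card_perm, Nat.factorial_succ]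

theorem sa_lt {n : ℕ} (i : Fin (n + 1)) (a b : Fin n) :
    i.succAbove a < i.succAbove b ↔ a < b := by
  exact Fin.succAbove_lt_succAbove_iff

theorem good_ins {α : Type} {n : ℕ} (w : Fin (n + 1) → α) (i : Fin (n + 1))
    (τ : Equiv.Perm (Fin n)) :
    GoodOrder w (ins (i, τ)) ↔ Proper w ∧ GoodOrder (fun j => w (i.succAbove j)) τ := by
  constructor
  · intro h
    refine ⟨?_, ?_⟩
    · intro a b hab
      refine h (n + 1) a b (by rw [Fin.lt_def]; omega) (Fin.isLt _) (Fin.isLt _) ?_
      intro k hk1 hk2
      rw [Fin.lt_def] at hk1 hk2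
      omega
    · intro t a b hab ha hb hk
      refine h (min t n) (i.succAbove a) (i.succAbove b) ((sa_lt i a b).2 hab) ?_ ?_ ?_
      · rw [ins_sa]; exact lt_min ha (τ a).isLt
      · rw [ins_sa]; exact lt_min hb (τ b).isLt
      · intro k hk1 hk2
        by_cases hki : k = i
        · subst hki
          rw [ins_same]
          exact min_le_right _ _
        · obtain ⟨c, rfl⟩ := Fin.exists_succAbove_eq hki
          rw [ins_sa]
          exact (min_le_left _ _).trans (hk c ((sa_lt i a c).1 hk1) ((sa_lt i c b).1 hk2))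
  · rintro ⟨hp, hg⟩ t x y hxy hx hy hk
    by_cases ht : t ≤ n
    · have hxi : x ≠ i := by
        rintro rfl
        rw [ins_same] at hx
        have : (Fin.last n : ℕ) = n := rfl
        omega
      have hyi : y ≠ i := by
        rintro rfl
        rw [ins_same] at hy
        have : (Fin.last n : ℕ) = n := rfl
        omega
      obtain ⟨a, rfl⟩ := Fin.exists_succAbove_eq hxi
      obtain ⟨b, rfl⟩ := Fin.exists_succAbove_eq hyi
      rw [ins_sa] at hx hy
      refine hg t a b ((sa_lt i a b).1 hxy) hx hy ?_
      intro c hc1 hc2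
      have := hk (i.succAbove c) ((sa_lt i a c).2 hc1) ((sa_lt i c b).2 hc2)
      rw [ins_sa] at this
      exact this
    · refine hp x y ?_
      by_contra hne
      rw [Fin.lt_def] at hxy
      have hlt : (x : ℕ) + 1 < n + 1 := by have := y.isLt; omega
      have := hk ⟨(x : ℕ) + 1, hlt⟩ (by rw [Fin.lt_def]; show (x : ℕ) < (x : ℕ) + 1; omega)
        (by rw [Fin.lt_def]; show (x : ℕ) + 1 < (y : ℕ); omega)
      have h2 := (ins (i, τ) ⟨(x : ℕ) + 1, hlt⟩).isLt
      omega

open Classical in
/-- the number of good orders of arrival -/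
noncomputable def orders {α : Type} {n : ℕ} (w : Fin n → α) : ℕ :=
  (Finset.univ.filter (fun σ : Equiv.Perm (Fin n) => GoodOrder w σ)).card

theorem orders_eq {α : Type} : ∀ (n : ℕ) (w : Fin n → α), orders w = B n w := by
  classical
  intro n
  induction n with
  | zero =>
    intro w
    have : ∀ σ : Equiv.Perm (Fin 0), GoodOrder w σ := fun σ t i => i.elim0
    simp [orders, B, this]
  | succ n ih =>
    intro w
    have h1 : orders w = ∑ i : Fin (n + 1), ∑ τ : Equiv.Perm (Fin n),
        if GoodOrder w (ins (i, τ)) then 1 else 0 := by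
      rw [orders, Finset.card_filter, ← Fintype.sum_prod_type']
      exact ((Equiv.ofBijective _ ins_bij).sum_comp
        (fun σ => if GoodOrder w σ then 1 else 0)).symm
    rw [h1, B]
    by_cases hp : Proper w
    · rw [if_pos hp]
      refine Finset.sum_congr rfl fun i _ => ?_
      rw [← ih, orders, Finset.card_filter]
      refine Finset.sum_congr rfl fun τ _ => ?_
      simp only [good_ins, hp, true_and]
    · rw [if_neg hp]
      refine Finset.sum_eq_zero fun i _ => Finset.sum_eq_zero fun τ _ => ?_
      simp only [good_ins, hp, false_and, if_false]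

end Pool.Agent.H960.HL
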