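import Pool.Agent.H960.HL.Dir
import Pool.Agent.H960.HL.Ord

/-!
# Notes on MP_f3d782_pr, Q1: paper proof of the other half (not formalised)

`X = C^(4)`, `Y = C^(3)`, `B w` = number of good orders, `P_X(w) = B w / (2^n (n+1)!)`,
`P_Y(w) = 2 B w / (n+2)!` for words of length `n` (`S_succ`). `FourNotBlockFactorOfThree` proves
that `X` is not a block factor of `Y`. The other half, `Y` is not a block factor of `X`:

Suppose `g : [4]^r -> [3]` (`r >= 2`) with `g(X) = Y` in law; then, for `u` in `[3]^n`,
(1) the sum of `B w` over `w` in `[4]^(n+r-1)` with `g(w) = u` is `2^(n+r) (n+r)!/(n+2)! B u`.

A. Only end letters of an alternating block `stst...` can be removed (interior letters have equal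
neighbours), so a word of `k` alternating blocks and `G` further letters has `B <= N^G (2k)^N`.
B. Cut a word into pieces; removals inside different pieces which keep the first and the last letter
of the piece do not interact, so `B` is at least the multinomial coefficient times the product of
the numbers of such inner removal sequences. A piece which is not alternating has at least one.
A junction of two different alternating blocks (garbage between them removed first, or, for equal
pairs, one letter outside the pair kept) has rate `>= sqrt 2`: for pairs sharing one letter the
states (last letter of the left block, first letter of the right block) form a path with three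
vertices, eigenvalue `sqrt 2`; for disjoint pairs the rate is `2`.
C. Pumping (blocks of length `> r`, repeated windows) with (1), `B(alternating) = 2^(n-1)`:
every `w` with `g(w)` alternating consists of at most two long alternating blocks and boundedly
many other letters: three long blocks would give growth `2 + 2 sqrt 2 > 4`, a non-alternating cycle
would give growth `>= 5`. By the lower bound in (1) two long blocks do occur for each of the three
pairs `p` of `Y`, with pairs `a_p /= b_p` (equal pairs could be chained), and with junction rate `2`.
Every pair of `X` maps to one pair of `Y`, so each of the three fibres of `6 -> 3` is exactly
`{a_p, b_p}`, and the connection is possible only in the direction `a_p -> b_p`.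
D. Take the clean two-block words `u = 1212..|3131..` of `Y`: `B u` has growth exactly `2 + sqrt 2`
(numerically 3.41421 at lengths up to 14), so the sum in (1) has growth `4 + 2 sqrt 2 = 6.83`.
Preimages with at most three long blocks contribute growth at most `6`. So preimages with four long
blocks `a_p b_p a_p' b_p'` exist; inserting the connections of rate `2` inside both halves gives a
preimage with growth `>= 1 + 2 + sqrt 2 + 2 + 1 = 6 + sqrt 2 > 4 + 2 sqrt 2`. Contradiction.

Q2: `h(X) > log 2 >= h(Y)` and both processes are finitarily isomorphic to i.i.d. processes
(Smorodinsky), so by Keane-Smorodinsky `Y` is a finitary factor of `X` and `X` is not a factor of `Y`.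
-/

namespace Pool.Agent.H960.HL

end Pool.Agent.H960.HL
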