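import Pool.Agent.H960.HL.Bas

open Finset

namespace Pool.Agent.H960.HL

theorem sa_val {n : ℕ} (i : Fin (n + 1)) (j : Fin n) :
    ((i.succAbove j : Fin (n + 1)) : ℕ) = if (j : ℕ) < (i : ℕ) then (j : ℕ) else (j : ℕ) + 1 := by
  by_cases h : (j : ℕ) < (i : ℕ)
  · rw [if_pos h, Fin.succAbove_of_castSucc_lt _ _ (by rw [Fin.lt_def]; exact h)]
    rfl
  · rw [if_neg h, Fin.succAbove_of_le_castSucc _ _ (by rw [Fin.le_def]; exact not_lt.mp h)]
    rfl

/-- letters next to the place `i` -/
def nb {q n : ℕ} (w : Fin n → Fin q) (i : Fin (n + 1)) : Finset (Fin q) :=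
  (Finset.univ.filter (fun j : Fin n => (j : ℕ) + 1 = (i : ℕ) ∨ (j : ℕ) = (i : ℕ))).image w

theorem proper_insert {q n : ℕ} (w : Fin n → Fin q) (hw : Proper w) (i : Fin (n + 1)) (c : Fin q) :
    Proper (i.insertNth (α := fun _ => Fin q) c w) ↔ c ∉ nb w i := by
  classical
  constructor
  · intro h hc
    simp only [nb, Finset.mem_image, Finset.mem_filter, Finset.mem_univ, true_and] at hc
    obtain ⟨j, hj, rfl⟩ := hc
    rcases hj with hj | hj
    · have := h (i.succAbove j) i (by rw [sa_val, if_pos (by omega)]; exact hj)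
      simp at this
    · have := h i (i.succAbove j) (by rw [sa_val, if_neg (by omega)]; omega)
      simp at this
  · intro hc x y hxy
    simp only [nb, Finset.mem_image, Finset.mem_filter, Finset.mem_univ, true_and, not_exists,
      not_and] at hc
    by_cases hx : x = i
    · subst hx
      have hy : y ≠ x := by
        intro h; subst h; omega
      obtain ⟨j, rfl⟩ := Fin.exists_succAbove_eq hy
      rw [sa_val] at hxy
      have hj : (j : ℕ) = (x : ℕ) := by
        split_ifs at hxy <;> omega
      simp only [Fin.insertNth_apply_same, Fin.insertNth_apply_succAbove]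
      exact fun h => hc j (Or.inr hj) h.symm
    · obtain ⟨j, rfl⟩ := Fin.exists_succAbove_eq hx
      by_cases hy : y = i
      · subst hy
        rw [sa_val] at hxy
        have hj : (j : ℕ) + 1 = (y : ℕ) := by
          split_ifs at hxy <;> omega
        simp only [Fin.insertNth_apply_same, Fin.insertNth_apply_succAbove]
        exact fun h => hc j (Or.inl hj) h
      · obtain ⟨k, rfl⟩ := Fin.exists_succAbove_eq hy
        simp only [Fin.insertNth_apply_succAbove]
        rw [sa_val, sa_val] at hxy
        by_cases hjk : (j : ℕ) + 1 = (k : ℕ)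
        · exact hw j k hjk
        · exfalso
          split_ifs at hxy <;> omega

theorem card_nb {q n : ℕ} (w : Fin n → Fin q) (hw : Proper w) (i : Fin (n + 1)) :
    (nb w i).card = (if 0 < (i : ℕ) then 1 else 0) + (if (i : ℕ) < n then 1 else 0) := by
  classical
  have hinj : Set.InjOn w
      ((Finset.univ.filter (fun j : Fin n => (j : ℕ) + 1 = (i : ℕ) ∨ (j : ℕ) = (i : ℕ)) :
        Finset (Fin n)) : Set (Fin n)) := by
    intro a ha b hb hab
    simp only [Finset.coe_filter, Finset.mem_univ, true_and, Set.mem_ofPred_eq] at ha hb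
    by_contra hne
    have hv : (a : ℕ) ≠ (b : ℕ) := fun h => hne (Fin.ext h)
    rcases ha with ha | ha <;> rcases hb with hb | hb
    · omega
    · exact hw a b (by omega) hab
    · exact hw b a (by omega) hab.symm
    · omega
  rw [nb, Finset.card_image_of_injOn hinj, Finset.filter_or, Finset.card_union_of_disjoint]
  · congr 1
    · by_cases h : 0 < (i : ℕ)
      · rw [if_pos h]
        have : (Finset.univ.filter (fun j : Fin n => (j : ℕ) + 1 = (i : ℕ))) =
            {⟨(i : ℕ) - 1, by have := i.isLt; omega⟩} := by
          ext j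
          simp only [Finset.mem_filter, Finset.mem_univ, true_and, Finset.mem_singleton, Fin.ext_iff]
          omega
        rw [this, Finset.card_singleton]
      · rw [if_neg h, Finset.card_eq_zero, Finset.filter_eq_empty_iff]
        intro j _ hj
        omega
    · by_cases h : (i : ℕ) < n
      · rw [if_pos h]
        have : (Finset.univ.filter (fun j : Fin n => (j : ℕ) = (i : ℕ))) = {⟨(i : ℕ), h⟩} := by
          ext j
          simp only [Finset.mem_filter, Finset.mem_univ, true_and, Finset.mem_singleton, Fin.ext_iff]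
        rw [this, Finset.card_singleton]
      · rw [if_neg h, Finset.card_eq_zero, Finset.filter_eq_empty_iff]
        intro j _ hj
        have := j.isLt
        omega
  · rw [Finset.disjoint_filter]
    intro j _ h1 h2
    omega

theorem sum_nb {q n : ℕ} (w : Fin n → Fin q) (hw : Proper w) :
    ∑ i : Fin (n + 1), (nb w i).card = 2 * n := by
  simp_rw [card_nb w hw]
  rw [Finset.sum_add_distrib]
  have h1 : ∑ i : Fin (n + 1), (if 0 < (i : ℕ) then 1 else 0) = n := by
    rw [Fin.sum_univ_succ]
    simp
  have h2 : ∑ i : Fin (n + 1), (if (i : ℕ) < n then 1 else 0) = n := by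
    rw [Fin.sum_univ_castSucc]
    simp
  rw [h1, h2]
  ring

theorem S_succ (q n : ℕ) : (S q (n + 1) : ℤ) = ((q : ℤ) * (n + 1) - 2 * n) * S q n := by
  classical
  have hB : ∀ w : Fin (n + 1) → Fin q, B (n + 1) w =
      ∑ i : Fin (n + 1), if Proper w then B n (fun j => w (i.succAbove j)) else 0 := by
    intro w
    by_cases hp : Proper w <;> simp [B, hp]
  have h1 : S q (n + 1) = ∑ w : Fin n → Fin q, ∑ i : Fin (n + 1),
      (Finset.univ.filter (fun c : Fin q =>
        Proper (i.insertNth (α := fun _ => Fin q) c w))).card * B n w := by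
    rw [S]
    simp_rw [hB]
    rw [Finset.sum_comm]
    rw [Finset.sum_comm (s := (Finset.univ : Finset (Fin n → Fin q)))]
    refine Finset.sum_congr rfl fun i _ => ?_
    rw [← (Fin.insertNthEquiv (fun _ => Fin q) i).sum_comp, Fintype.sum_prod_type,
      Finset.sum_comm]
    refine Finset.sum_congr rfl fun w _ => ?_
    rw [Finset.card_filter, Finset.sum_mul]
    refine Finset.sum_congr rfl fun c _ => ?_
    have e : (Fin.insertNthEquiv (fun _ => Fin q) i) (c, w) =
        i.insertNth (α := fun _ => Fin q) c w := rfl
    rw [e]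
    simp only [Fin.insertNth_apply_succAbove]
    by_cases hp : Proper (i.insertNth (α := fun _ => Fin q) c w)
    · simp [hp]
    · simp [hp]
  have h2 : ∀ w : Fin n → Fin q, ((∑ i : Fin (n + 1),
      (Finset.univ.filter (fun c : Fin q =>
        Proper (i.insertNth (α := fun _ => Fin q) c w))).card * B n w : ℕ) : ℤ) =
      ((q : ℤ) * (n + 1) - 2 * n) * (B n w : ℤ) := by
    intro w
    by_cases hp : Proper w
    · rw [← Finset.sum_mul]
      push_cast
      congr 1
      have hc : ∀ i : Fin (n + 1), ((Finset.univ.filter (fun c : Fin q =>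
          Proper (i.insertNth (α := fun _ => Fin q) c w))).card : ℤ) =
          (q : ℤ) - ((nb w i).card : ℤ) := by
        intro i
        have : Finset.univ.filter (fun c : Fin q =>
            Proper (i.insertNth (α := fun _ => Fin q) c w)) = (nb w i)ᶜ := by
          ext c
          simp [proper_insert w hp i c]
        rw [this, Finset.card_compl, Fintype.card_fin]
        have : (nb w i).card ≤ q := by
          simpa using Finset.card_le_univ (nb w i)
        omega
      simp_rw [hc]
      rw [Finset.sum_sub_distrib]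
      have h3 : (∑ x : Fin (n + 1), ((nb w x).card : ℤ)) = ((2 * n : ℕ) : ℤ) := by
        rw [← sum_nb w hp]; push_cast; rfl
      rw [h3]
      simp
      ring
    · have h0 : B n w = 0 := by
        cases n with
        | zero => exact absurd (fun i => i.elim0) hp
        | succ m => simp [B, hp]
      simp [h0]
  rw [h1]
  push_cast
  rw [S]
  push_cast
  rw [Finset.mul_sum]
  refine Finset.sum_congr rfl fun w _ => ?_
  have := h2 w
  push_cast at this
  exact this

theorem S_zero (q : ℕ) : S q 0 = 1 := by
  simp [S, B]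

theorem S_four : ∀ n : ℕ, 2 ^ n * (n + 1).factorial ≤ S 4 n
  | 0 => by simp [S_zero]
  | n + 1 => by
    have h := S_succ 4 n
    have ih := S_four n
    have : S 4 (n + 1) = (2 * n + 4) * S 4 n := by
      have h' : (S 4 (n + 1) : ℤ) = ((2 * n + 4 : ℕ) : ℤ) * S 4 n := by
        rw [h]; push_cast; ring
      exact_mod_cast h'
    rw [this, Nat.factorial_succ]
    calc 2 ^ (n + 1) * ((n + 1 + 1) * (n + 1).factorial) =
        (2 * n + 4) * (2 ^ n * (n + 1).factorial) := by ring
      _ ≤ _ := Nat.mul_le_mul_left _ ih

theorem S_three : ∀ n : ℕ, 2 * S 3 n ≤ (n + 2).factorial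
  | 0 => by simp [S_zero, Nat.factorial]
  | n + 1 => by
    have h := S_succ 3 n
    have ih := S_three n
    have : S 3 (n + 1) = (n + 3) * S 3 n := by
      have h' : (S 3 (n + 1) : ℤ) = ((n + 3 : ℕ) : ℤ) * S 3 n := by
        rw [h]; push_cast; ring
      exact_mod_cast h'
    rw [this, Nat.factorial_succ (n + 2)]
    calc 2 * ((n + 3) * S 3 n) = (n + 3) * (2 * S 3 n) := by ring
      _ ≤ (n + 3) * (n + 2).factorial := Nat.mul_le_mul_left _ ih
      _ = (n + 2 + 1) * (n + 2).factorial := by ring

end Pool.Agent.H960.HL
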